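import Pool.Agent.N990.RT.Stm

/-! Project RT, leaf STP (helper78): one step estimate. -/

set_option autoImplicit false

open MeasureTheory
open Pool.Agent.N988.EA Pool.Agent.N990.RT

namespace Pool.Agent.N78.RT

theorem stp_half (ν : Measure Ang) [IsProbabilityMeasure ν] (δ : ℝ) (hδ : 0 ≤ δ)
    (h : ∀ B : Set Ang, MeasurableSet B → δ * ha.real B ≤ ν.real B) (G : Ang → ℝ)
    (hG : Measurable G) (hG0 : ∀ z, 0 ≤ G z) (C : ℝ) (hC : ∀ z, G z ≤ C) :
    δ * ∫ z, G z ∂ha ≤ ∫ z, G z ∂ν := by
  have hle : ENNReal.ofReal δ • ha ≤ ν := by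
    rw [Measure.le_iff]
    intro B hB
    rw [Measure.smul_apply, smul_eq_mul, ← ofReal_measureReal (μ := ha) (s := B),
      ← ENNReal.ofReal_mul hδ, ← ofReal_measureReal (μ := ν) (s := B)]
    exact ENNReal.ofReal_le_ofReal (h B hB)
  have hi : Integrable G ν := Integrable.of_bound hG.aestronglyMeasurable C
    (Filter.Eventually.of_forall fun z => by
      rw [Real.norm_of_nonneg (hG0 z)]; exact hC z)
  have h1 := integral_mono_measure hle (Filter.Eventually.of_forall hG0) hi
  rw [integral_smul_measure, ENNReal.toReal_ofReal hδ, smul_eq_mul] at h1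
  exact h1

theorem stp_abs (ν : Measure Ang) [IsProbabilityMeasure ν] (δ : ℝ) (hδ : 0 ≤ δ)
    (h : ∀ B : Set Ang, MeasurableSet B → δ * ha.real B ≤ ν.real B) (F : Ang → ℝ)
    (hF : Measurable F) (a b : ℝ) (hab : ∀ z, a ≤ F z ∧ F z ≤ b) :
    δ * (∫ z, F z ∂ha) + (1 - δ) * a ≤ ∫ z, F z ∂ν ∧
      ∫ z, F z ∂ν ≤ δ * (∫ z, F z ∂ha) + (1 - δ) * b := by
  have hi : ∀ (μ : Measure Ang) [IsProbabilityMeasure μ], Integrable F μ := fun μ _ =>
    Integrable.of_bound hF.aestronglyMeasurable (max |a| |b|)
      (Filter.Eventually.of_forall fun z => abs_le_max_abs_abs (hab z).1 (hab z).2)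
  have h1 := stp_half ν δ hδ h (fun z => F z - a) (hF.sub_const a) (fun z => sub_nonneg.2 (hab z).1)
    (b - a) (fun z => sub_le_sub_right (hab z).2 a)
  have h2 := stp_half ν δ hδ h (fun z => b - F z) (hF.const_sub b) (fun z => sub_nonneg.2 (hab z).2)
    (b - a) (fun z => sub_le_sub_left (hab z).1 b)
  rw [integral_sub (hi _) (integrable_const _), integral_sub (hi _) (integrable_const _),
    integral_const, integral_const] at h1
  rw [integral_sub (integrable_const _) (hi _), integral_sub (integrable_const _) (hi _),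
    integral_const, integral_const] at h2
  simp only [probReal_univ, one_smul] at h1 h2
  constructor <;> nlinarith

theorem t_stp (h1 : S_BAS) (h2 : S_CSI) (h3 : S_AVG) : S_STP := by
  intro β p n f a b hf hab τ
  have := (h1 β (n + 1)).2.2.2.1 τ
  have hπ : Measurable fun σ : Vert 2 (n + 1) → Ang => σ (Sum.inl (p n).1 : Vert 2 (n + 1)) :=
    measurable_pi_apply _
  have : IsProbabilityMeasure ((gib β (n + 1) τ).map
      fun σ : Vert 2 (n + 1) → Ang => σ (Sum.inl (p n).1 : Vert 2 (n + 1))) :=
    Measure.isProbabilityMeasure_map hπ.aemeasurable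
  set ν := (gib β (n + 1) τ).map
      fun σ : Vert 2 (n + 1) → Ang => σ (Sum.inl (p n).1 : Vert 2 (n + 1)) with hν
  have hcs : ∀ (B : Set Ang), MeasurableSet B → ∀ s : ℝ,
      Real.exp (-((2 * |β|) * s ^ 2)) * ν.real B ^ 2 ≤
      ν.real {z | z - (s : Ang) ∈ B} * ν.real {z | z + (s : Ang) ∈ B} := by
    intro B hB s
    have e1 : MeasurableSet {z : Ang | z - (s : Ang) ∈ B} := (measurable_sub_const _) hB
    have e2 : MeasurableSet {z : Ang | z + (s : Ang) ∈ B} := (measurable_add_const _) hB
    rw [hν, map_measureReal_apply hπ hB, map_measureReal_apply hπ e1, map_measureReal_apply hπ e2]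
    exact h2 β n (p n).1 τ B hB s
  have hlow := h3 ν (2 * |β|) (by positivity) hcs
  have hdl : dl β = Real.exp (-(2 * |β| * Real.pi ^ 2)) := by
    unfold dl
    congr 1
    ring
  have hF : Measurable fun z : Ang => f (fun t => if t = (p n).2 then τ t else z) := by
    refine hf.comp (measurable_pi_lambda _ fun t => ?_)
    by_cases ht : t = (p n).2
    · simp only [ht, if_true]
      exact measurable_const
    · simp only [ht, if_false]
      exact measurable_id
  have hmain := stp_abs ν (dl β) (Real.exp_pos _).le (fun B hB => by rw [hdl]; exact hlow B hB)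
    (fun z : Ang => f (fun t => if t = (p n).2 then τ t else z)) hF a b (fun z => hab _)
  have htop : Top β p n f τ = ∫ z, f (fun t => if t = (p n).2 then τ t else z) ∂ν := by
    rw [hν, integral_map hπ.aemeasurable hF.aestronglyMeasurable]
    rfl
  rw [htop]
  exact hmain

end Pool.Agent.N78.RT
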